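import Mathlib

/-!
Helper file for MP_888f53_nt (helper51): for fixed `K` the first `K` choices of `k` fail
simultaneously for infinitely many `n`.
-/

namespace Pool.Agent.SgPh

open Nat ArithmeticFunction

/-- If `q ∣ m`, `q ≡ 1 mod p`, `p ∣ σ(k²)`, then `σ(k²) + φ(m)` is not prime. -/
theorem not_prime_of_dvd {k m p q : ℕ} (hk : 1 ≤ k) (hp : p.Prime) (hq : q.Prime)
    (hqp : q ≡ 1 [MOD p]) (hps : p ∣ ArithmeticFunction.sigma 1 (k ^ 2)) (hm : 0 < m)
    (hqm : q ∣ m) :
    ¬ (ArithmeticFunction.sigma 1 (k ^ 2) + Nat.totient m).Prime := by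
  have h1 : p ∣ q - 1 := (Nat.modEq_iff_dvd' hq.one_lt.le).mp hqp.symm
  have h2 : q - 1 ∣ Nat.totient m := by
    have := Nat.totient_dvd_of_dvd hqm
    rwa [Nat.totient_prime hq] at this
  have h3 : p ∣ Nat.totient m := h1.trans h2
  have h4 : 0 < Nat.totient m := Nat.totient_pos.mpr hm
  have h5 : 0 < ArithmeticFunction.sigma 1 (k ^ 2) := by
    rw [ArithmeticFunction.sigma_one_apply]
    apply Finset.sum_pos
    · intro i hi
      exact Nat.pos_of_mem_divisors hi
    · exact ⟨1, Nat.one_mem_divisors.mpr (by positivity)⟩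
  have h6 : p ≤ ArithmeticFunction.sigma 1 (k ^ 2) := Nat.le_of_dvd h5 hps
  intro h
  have h7 : p ∣ ArithmeticFunction.sigma 1 (k ^ 2) + Nat.totient m := dvd_add hps h3
  rcases (Nat.dvd_prime h).mp h7 with h8 | h8
  · exact hp.one_lt.ne' h8
  · omega

/-- `σ(k²)` has a prime factor for `k ≥ 2`. -/
theorem exists_prime_sigma {k : ℕ} (hk : 2 ≤ k) :
    ∃ p, p.Prime ∧ p ∣ ArithmeticFunction.sigma 1 (k ^ 2) := by
  apply Nat.exists_prime_and_dvd
  have h : k ^ 2 + 1 ≤ ArithmeticFunction.sigma 1 (k ^ 2) := by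
    rw [ArithmeticFunction.sigma_one_apply]
    have hne : k ^ 2 ≠ 0 := by positivity
    have h1 : ({k ^ 2, 1} : Finset ℕ) ⊆ (k ^ 2).divisors := by
      intro x hx
      simp only [Finset.mem_insert, Finset.mem_singleton] at hx
      rcases hx with rfl | rfl
      · exact Nat.mem_divisors_self _ hne
      · exact Nat.one_mem_divisors.mpr hne
    have h2 : ∑ i ∈ ({k ^ 2, 1} : Finset ℕ), i = k ^ 2 + 1 := by
      rw [Finset.sum_pair]
      nlinarith
    rw [← h2]
    exact Finset.sum_le_sum_of_subset h1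
  have : 4 ≤ k ^ 2 := by nlinarith
  omega

/-- A residue class `c mod M` (coprime, `3 ∣ M`, `c ≡ 2 mod 3`) such that for every `r` in it,
`n = 3 r + 1` has all of `k = 2, …, K` failing. -/
theorem exists_class (K : ℕ) : ∃ M c : ℕ, 0 < M ∧ 3 ∣ M ∧ c.Coprime M ∧ c % 3 = 2 ∧
    ∀ r : ℕ, r ≡ c [MOD M] → ∀ k, 2 ≤ k → k ≤ K → k ^ 2 < 3 * r + 1 →
      ¬ (ArithmeticFunction.sigma 1 (k ^ 2) + Nat.totient (3 * r + 1 - k ^ 2)).Prime := by
  induction K with
  | zero =>
    refine ⟨3, 2, by norm_num, dvd_rfl, by norm_num, by norm_num, ?_⟩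
    intro r _ k h2 h0
    omega
  | succ K ih =>
    obtain ⟨M, c, hM, h3, hcM, hc3, hr⟩ := ih
    rcases Nat.lt_or_ge (K + 1) 2 with hK | hK
    · refine ⟨M, c, hM, h3, hcM, hc3, ?_⟩
      intro r _ k h2 h0
      omega
    · obtain ⟨p, hp, hps⟩ := exists_prime_sigma hK
      obtain ⟨q, hq, hqB, hqp⟩ := Nat.exists_prime_gt_modEq_one (M + (K + 1) ^ 2 + 3) hp.ne_zero
      have hqM : M.Coprime q := by
        apply Nat.Coprime.symm
        rw [Nat.Prime.coprime_iff_not_dvd hq]
        intro h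
        have := Nat.le_of_dvd hM h
        omega
      have h3q : Nat.Coprime 3 q := by
        apply Nat.Coprime.symm
        rw [Nat.Prime.coprime_iff_not_dvd hq]
        intro h
        have := Nat.le_of_dvd (by norm_num) h
        omega
      obtain ⟨u, _, hu⟩ := Nat.exists_mul_mod_eq_one_of_coprime h3q hq.one_lt
      -- b ≡ u ((K+1)² - 1)
      set s : ℕ := (K + 1) ^ 2 - 1 with hs
      have hs1 : 1 ≤ s := by
        have : 4 ≤ (K + 1) ^ 2 := by nlinarith
        omega
      have hss : s + 1 = (K + 1) ^ 2 := by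
        have : 4 ≤ (K + 1) ^ 2 := by nlinarith
        omega
      have h3b : 3 * (u * s) ≡ s [MOD q] := by
        have h31 : 3 * u ≡ 1 [MOD q] := by
          unfold Nat.ModEq
          rw [hu, Nat.mod_eq_of_lt hq.one_lt]
        calc 3 * (u * s) = (3 * u) * s := by ring
          _ ≡ 1 * s [MOD q] := h31.mul_right s
          _ = s := by ring
      obtain ⟨c', hc'M, hc'q⟩ := Nat.chineseRemainder hqM c (u * s)
      have hc'cop : c'.Coprime M := by
        have := hc'M.gcd_eq
        unfold Nat.Coprime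
        rw [this]
        exact hcM
      have hc'copq : c'.Coprime q := by
        apply Nat.Coprime.symm
        rw [Nat.Prime.coprime_iff_not_dvd hq]
        intro h
        have h1 : 3 * c' ≡ s [MOD q] := (hc'q.mul_left 3).trans h3b
        have h2 : q ∣ s := (h1.dvd_iff dvd_rfl).mp (h.mul_left 3)
        have := Nat.le_of_dvd hs1 h2
        omega
      refine ⟨M * q, c', Nat.mul_pos hM hq.pos, h3.mul_right q, hc'cop.mul_right hc'copq, ?_, ?_⟩
      · have h1 : c' ≡ c [MOD 3] := hc'M.of_dvd h3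
        have h2 : c' % 3 = c % 3 := h1
        omega
      · intro r hrc k hk2 hkK hlt
        have hrM : r ≡ c [MOD M] := (hrc.of_dvd (Dvd.intro _ rfl)).trans hc'M
        rcases Nat.lt_or_ge k (K + 1) with hk | hk
        · exact hr r hrM k hk2 (by omega) hlt
        · have hkeq : k = K + 1 := by omega
          subst hkeq
          have hrq : r ≡ u * s [MOD q] := (hrc.of_dvd (Dvd.intro_left _ rfl)).trans hc'q
          have h1 : 3 * r ≡ s [MOD q] := (hrq.mul_left 3).trans h3b
          have h2 : 3 * r + 1 ≡ (K + 1) ^ 2 [MOD q] := by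
            rw [← hss]
            exact h1.add_right 1
          have h3' : q ∣ 3 * r + 1 - (K + 1) ^ 2 := (Nat.modEq_iff_dvd' hlt.le).mp h2.symm
          exact not_prime_of_dvd (by omega) hp hq hqp hps (by omega) h3'

/-- `k = 1` fails for `n = 3 r + 1`, `r ≡ 2 mod 3` a prime `> 2`. -/
theorem one_fails {r : ℕ} (hr : r.Prime) (hr3 : r % 3 = 2) (hr2 : 2 < r) :
    ¬ (ArithmeticFunction.sigma 1 (1 ^ 2) + Nat.totient (3 * r + 1 - 1 ^ 2)).Prime := by
  have h1 : 3 * r + 1 - 1 ^ 2 = 3 * r := by norm_num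
  have hcop : Nat.Coprime 3 r := by
    rw [Nat.Prime.coprime_iff_not_dvd Nat.prime_three]
    omega
  have h2 : Nat.totient (3 * r) = 2 * (r - 1) := by
    rw [Nat.totient_mul hcop, Nat.totient_prime Nat.prime_three, Nat.totient_prime hr]
  have h3 : ArithmeticFunction.sigma 1 (1 ^ 2) = 1 := by simp
  rw [h1, h2, h3]
  intro h
  have h4 : 3 ∣ 1 + 2 * (r - 1) := by omega
  rcases (Nat.dvd_prime h).mp h4 with h5 | h5
  · omega
  · omega

end Pool.Agent.SgPh
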